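import Pool.Agent.Q227.Tr.Meas

/-!
# Extreme traces of `C*(ℤ² ⋉ ℤ[1/6])` of infinite conditional dimension: one or infinitely many

Let `G` be the group generated by `x ↦ 2 x`, `x ↦ 3 x`, `x ↦ x + 1` on `ℚ`, a copy of
`ℤ² ⋉ ℤ[1/6]`.  The tracial states of `C*(G)` are the normalised positive definite class functions
`φ` on `G`.  Let `Wild G` be the set of the extreme ones which are not conditionally
finite-dimensional; the problem asks whether `Wild G = {reg G}`, `reg G` the regular trace.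

1. `Wild G` is `{reg G}` or infinite.
2. `Wild G ≠ {reg G}` if and only if the regular trace is a pointwise limit of elements of `Wild G`
   different from it.
3. For `m ≥ 1` let `dilate m φ` be the function `g ↦ φ (m g m⁻¹)`, where `m g m⁻¹` is the map
   `x ↦ m g (x / m)`.  If `φ` is in `Wild G` and is not the regular trace, then so is every
   `dilate m φ`, and `dilate m φ` converges pointwise to the regular trace in quadratic mean over
   `m ≤ N` (hence along a set of numbers `m` of density one).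

For the measures on the circle this is `Pool.Agent.H185.XQ` (results `OneOrInfinitelyMany`,
`IsolationOfLebesgue`); the transfer to the traces is in `Pool.Agent.Q227.Tr`: a trace with atomless
measure vanishes off the translations, atomless jointly ergodic measures give extreme traces of
infinite conditional dimension, and these are all of them.
-/

set_option autoImplicit false

open MeasureTheory Filter Topology Set
open scoped ComplexOrder

namespace Pool.Agent.Results.MP_81910f_an.IsolatedRegularTrace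

/-- the tracial states of `C*(G)`: normalised positive definite class functions -/
def Traces (G : Subgroup (Equiv.Perm ℚ)) : Set (G → ℂ) :=
  {ψ : G → ℂ | ψ 1 = 1 ∧ (∀ g h : G, ψ (h * g * h⁻¹) = ψ g) ∧
    ∀ (s : Finset G) (c : G → ℂ), 0 ≤ ∑ i ∈ s, ∑ j ∈ s, star (c j) * c i * ψ (j⁻¹ * i)}

/-- the extreme tracial states which are not conditionally finite-dimensional -/
def Wild (G : Subgroup (Equiv.Perm ℚ)) : Set (G → ℂ) :=
  {φ | φ ∈ Set.extremePoints ℝ (Traces G) ∧
    ¬ FiniteDimensional ℂ (Submodule.span ℂ {F : G → ℂ | ∃ n : G,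
      (∃ r : ℚ, ∀ x : ℚ, (n : Equiv.Perm ℚ) x = x + r) ∧ F = fun x => φ (n * x)})}

/-- the regular trace -/
noncomputable def reg (G : Subgroup (Equiv.Perm ℚ)) : G → ℂ :=
  Set.indicator ({1} : Set G) (fun _ => (1 : ℂ))

open Classical in
/-- `dilate m φ g = φ (m g m⁻¹)`, where `m g m⁻¹` is the map `x ↦ m g (x / m)` (which is in the group
for the group of the problem) -/
noncomputable def dilate {G : Subgroup (Equiv.Perm ℚ)} (m : ℕ) (φ : G → ℂ) (g : G) : ℂ :=
  if h : ∃ g' : G, ∀ x : ℚ, (g' : Equiv.Perm ℚ) (m * x) = m * (g : Equiv.Perm ℚ) x then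
    φ h.choose else 0

open Pool.Agent.Q227.Tr Pool.Agent.H185.XQ Pool.Agent.W763.Tr

variable {G : Subgroup (Equiv.Perm ℚ)}

theorem th_vol (hG : Form G) : (th volume : G → ℂ) = reg G := by
  funext g
  have hv := vol_mem
  have i2 := hv.2.2.1 2 (by simp)
  have i3 := hv.2.2.1 3 (by simp)
  by_cases hg : ∃ r : ℚ, ∀ x, (g : Equiv.Perm ℚ) x = x + r
  · obtain ⟨r, hg⟩ := hg
    obtain ⟨a, b, r', hr', h⟩ := hG g
    have e0 := h 0
    rw [hg, mul_zero, zero_add, zero_add] at e0
    subst e0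
    obtain ⟨n, k, hr⟩ := hr'
    rw [th_tau i2 i3 hg hr]
    by_cases hn : n = 0
    · have : g = 1 := by
        apply Subtype.ext
        apply Equiv.ext
        intro x
        rw [hg, hr, hn]
        simp
      rw [this, hn, cf_zero, reg]
      simp
    · rw [cf_volume hn, reg, Set.indicator_of_notMem]
      intro h1
      rw [Set.mem_singleton_iff] at h1
      have h2 := hg 0
      rw [h1, hr] at h2
      simp only [Subgroup.coe_one, Equiv.Perm.coe_one, id_eq, zero_add] at h2
      have h6 : ((6 : ℚ) ^ k) ≠ 0 := by positivity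
      have h3 : (n : ℚ) = 0 := by
        have := (div_eq_zero_iff.1 h2.symm).resolve_right h6
        exact this
      exact hn (by exact_mod_cast h3)
  · rw [th_off hG hg, reg, Set.indicator_of_notMem]
    intro h1
    rw [Set.mem_singleton_iff] at h1
    exact hg ⟨0, fun x => by rw [h1]; simp⟩

/-- the translates of an element under the dilation by `m` -/
theorem dilate_th {s2 s3 t : Equiv.Perm ℚ} (hs2 : ∀ x, s2 x = 2 * x) (hs3 : ∀ x, s3 x = 3 * x)
    (ht : ∀ x, t x = x + 1) (hG : G = Subgroup.closure {s2, s3, t}) {μ : Measure UnitAddCircle}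
    (hμ : μ ∈ AE {2, 3}) {m : ℕ} (hm : 0 < m) : dilate m (th μ : G → ℂ) = th (dil m μ) := by
  have := hμ.1
  have hG' : Form G := fun g => form hs2 hs3 ht g (by rw [← hG]; exact g.2)
  have i2 := hμ.2.2.1 2 (by simp)
  have i3 := hμ.2.2.1 3 (by simp)
  have hd := dil_mem hm hμ
  have j2 := hd.2.2.1 2 (by simp)
  have j3 := hd.2.2.1 3 (by simp)
  have hmQ : (m : ℚ) ≠ 0 := by exact_mod_cast hm.ne'
  funext g
  by_cases hg : ∃ r : ℚ, ∀ x, (g : Equiv.Perm ℚ) x = x + r
  · obtain ⟨r, hg⟩ := hg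
    obtain ⟨a, b, r', hr', h⟩ := hG' g
    have e0 := h 0
    rw [hg, mul_zero, zero_add, zero_add] at e0
    subst e0
    obtain ⟨n, k, hr⟩ := hr'
    have hpow : ∀ (j : ℕ) (x : ℚ), ((g ^ j : G) : Equiv.Perm ℚ) x = x + j * r := by
      intro j
      induction j with
      | zero => intro x; simp
      | succ j ih =>
        intro x
        rw [pow_succ, Subgroup.coe_mul, Equiv.Perm.mul_apply, hg, ih]
        push_cast; ring
    have hex : ∃ g' : G, ∀ x : ℚ, (g' : Equiv.Perm ℚ) (m * x) = m * (g : Equiv.Perm ℚ) x :=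
      ⟨g ^ m, fun x => by rw [hpow, hg]; ring⟩
    rw [dilate, dif_pos hex, th_tau j2 j3 hg hr, cf_dil]
    have h1 := hex.choose_spec
    set g' := hex.choose
    refine th_tau i2 i3 (r := m * r) (k := k) (fun x => ?_) ?_
    · have h2 := h1 (x / m)
      rw [mul_div_cancel₀ _ hmQ, hg] at h2
      rw [h2]
      field_simp
    · rw [hr]; push_cast; ring
  · rw [th_off hG' hg, dilate]
    split_ifs with hex
    · have h1 := hex.choose_spec
      set g' := hex.choose
      refine th_off hG' ?_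
      rintro ⟨r, hr⟩
      apply hg
      refine ⟨r / m, fun x => ?_⟩
      have h2 := h1 x
      rw [hr] at h2
      field_simp
      linarith
    · rfl

theorem wild_iff {s2 s3 t : Equiv.Perm ℚ} (hs2 : ∀ x, s2 x = 2 * x) (hs3 : ∀ x, s3 x = 3 * x)
    (ht : ∀ x, t x = x + 1) (hG : G = Subgroup.closure {s2, s3, t}) (φ : G → ℂ) :
    φ ∈ Wild G ↔ ∃ μ ∈ AE {2, 3}, φ = th μ := by
  constructor
  · rintro ⟨h1, h2⟩
    obtain ⟨μ, hμ, h3⟩ := ae_of hs2 hs3 ht hG h1 h2
    exact ⟨μ, hμ, h3⟩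
  · rintro ⟨μ, hμ, rfl⟩
    exact th_mem hs2 hs3 ht hG hμ

/-- **The regular trace is isolated if and only if it is the only one; one or infinitely many.** -/
theorem result (s2 s3 t : Equiv.Perm ℚ) (hs2 : ∀ x : ℚ, s2 x = 2 * x) (hs3 : ∀ x : ℚ, s3 x = 3 * x)
    (ht : ∀ x : ℚ, t x = x + 1) (G : Subgroup (Equiv.Perm ℚ))
    (hG : G = Subgroup.closure {s2, s3, t}) :
    (Wild G = {reg G} ∨ (reg G ∈ Wild G ∧ (Wild G).Infinite)) ∧
    ((∃ φ ∈ Wild G, φ ≠ reg G) ↔ ∃ ν : ℕ → G → ℂ, (∀ j, ν j ∈ Wild G ∧ ν j ≠ reg G) ∧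
      ∀ g : G, Tendsto (fun j => ν j g) atTop (𝓝 (reg G g))) ∧
    ∀ φ ∈ Wild G, φ ≠ reg G →
      (∀ m : ℕ, 1 ≤ m → dilate m φ ∈ Wild G ∧ dilate m φ ≠ reg G) ∧
      ∀ g : G, Tendsto (fun N : ℕ => (N : ℝ)⁻¹ *
        ∑ m ∈ Finset.range N, ‖dilate (m + 1) φ g - reg G g‖ ^ 2) atTop (𝓝 0) := by
  have hform : Form G := fun g => form hs2 hs3 ht g (by rw [← hG]; exact g.2)
  have hvol := th_vol (G := G) hform
  have hv := vol_mem
  have v2 := hv.2.2.1 2 (by simp)
  have v3 := hv.2.2.1 3 (by simp)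
  have hreg : reg G ∈ Wild G := (wild_iff hs2 hs3 ht hG _).2 ⟨volume, hv, hvol.symm⟩
  have hinj : ∀ μ ∈ AE {2, 3}, ∀ μ' ∈ AE {2, 3}, (th μ : G → ℂ) = th μ' → μ = μ' := by
    intro μ hμ μ' hμ' h
    have := hμ.1
    have := hμ'.1
    exact th_inj ht hG (hμ.2.2.1 2 (by simp)) (hμ.2.2.1 3 (by simp)) (hμ'.2.2.1 2 (by simp))
      (hμ'.2.2.1 3 (by simp)) h
  have hne : ∀ μ ∈ AE {2, 3}, μ ≠ volume → (th μ : G → ℂ) ≠ reg G := by
    intro μ hμ h1 h2
    rw [← hvol] at h2
    exact h1 (hinj μ hμ _ hv h2)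
  refine ⟨?_, ?_, ?_⟩
  · by_cases h : ∃ φ ∈ Wild G, φ ≠ reg G
    · right
      refine ⟨hreg, ?_⟩
      obtain ⟨φ, hφ, hφne⟩ := h
      obtain ⟨μ, hμ, rfl⟩ := (wild_iff hs2 hs3 ht hG φ).1 hφ
      have := hμ.1
      have hμv : μ ≠ volume := fun h => hφne (by rw [h, hvol])
      have hinf := infinite_AE (S := {2, 3}) ⟨2, by simp, le_rfl⟩ hμ.2.1 hμ.2.2.1 hμv
      have h1 := hinf.image (f := fun ρ => (th ρ : G → ℂ)) fun ρ hρ ρ' hρ' h => hinj ρ hρ ρ' hρ' h
      refine h1.mono ?_
      rintro _ ⟨ρ, hρ, rfl⟩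
      exact (wild_iff hs2 hs3 ht hG _).2 ⟨ρ, hρ, rfl⟩
    · left
      push Not at h
      exact Subset.antisymm (fun φ hφ => h φ hφ) (singleton_subset_iff.2 hreg)
  · constructor
    · rintro ⟨φ, hφ, hφne⟩
      obtain ⟨μ, hμ, rfl⟩ := (wild_iff hs2 hs3 ht hG φ).1 hφ
      have := hμ.1
      have hμv : μ ≠ volume := fun h => hφne (by rw [h, hvol])
      have h1 := not_isolated (S := {2, 3}) ⟨2, by simp, le_rfl⟩ hμ.2.1 hμ.2.2.1 hμv
      unfold Isolated at h1
      push Not at h1
      choose ν hν h2 h3 using fun j : ℕ => h1 (1 / ((j : ℝ) + 1)) (by positivity) j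
      refine ⟨fun j => th (ν j), fun j => ⟨(wild_iff hs2 hs3 ht hG _).2 ⟨ν j, hν j, rfl⟩,
        hne _ (hν j) (h3 j)⟩, fun g => ?_⟩
      by_cases hg : ∃ r : ℚ, ∀ x, (g : Equiv.Perm ℚ) x = x + r
      · obtain ⟨r, hg⟩ := hg
        obtain ⟨a, b, r', hr', h⟩ := hform g
        have e0 := h 0
        rw [hg, mul_zero, zero_add, zero_add] at e0
        subst e0
        obtain ⟨n, k, hr⟩ := hr'
        have e1 : ∀ j, (th (ν j) : G → ℂ) g = cf (ν j) n := fun j => by
          have := (hν j).1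
          exact th_tau ((hν j).2.2.1 2 (by simp)) ((hν j).2.2.1 3 (by simp)) hg hr
        have e2 : reg G g = cf volume n := by
          rw [← hvol]
          exact th_tau v2 v3 hg hr
        simp_rw [e1]
        rw [e2]
        by_cases hn : n = 0
        · have e3 : ∀ j, cf (ν j) n = 1 := fun j => by
            have := (hν j).1
            rw [hn, cf_zero]
          simp_rw [e3]
          rw [hn, cf_zero]
          exact tendsto_const_nhds
        · rw [cf_volume hn, tendsto_zero_iff_norm_tendsto_zero]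
          refine squeeze_zero' (Eventually.of_forall fun j => norm_nonneg _) ?_
            tendsto_one_div_add_atTop_nhds_zero_nat
          filter_upwards [eventually_ge_atTop n.natAbs] with j hj
          refine (h2 j n hn ?_).le
          rw [Int.abs_eq_natAbs]
          exact_mod_cast hj
      · have e1 : ∀ j, (th (ν j) : G → ℂ) g = 0 := fun j => th_off hform hg
        have e2 : reg G g = 0 := by rw [← hvol]; exact th_off hform hg
        simp_rw [e1]
        rw [e2]
        exact tendsto_const_nhds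
    · rintro ⟨ν, hν, -⟩
      exact ⟨ν 0, (hν 0).1, (hν 0).2⟩
  · intro φ hφ hφne
    obtain ⟨μ, hμ, rfl⟩ := (wild_iff hs2 hs3 ht hG φ).1 hφ
    have := hμ.1
    have hμv : μ ≠ volume := fun h => hφne (by rw [h, hvol])
    refine ⟨fun m hm => ?_, fun g => ?_⟩
    · rw [dilate_th hs2 hs3 ht hG hμ hm]
      refine ⟨(wild_iff hs2 hs3 ht hG _).2 ⟨_, dil_mem hm hμ, rfl⟩, hne _ (dil_mem hm hμ) fun h => ?_⟩
      exact hμv (eq_volume_of_dil le_rfl (hμ.2.2.1 2 (by simp)) hm h)
    · have e0 : ∀ m : ℕ, dilate (m + 1) (th μ : G → ℂ) g = th (dil (m + 1) μ) g := fun m => by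
        rw [dilate_th hs2 hs3 ht hG hμ (Nat.succ_pos m)]
      simp_rw [e0]
      by_cases hg : ∃ r : ℚ, ∀ x, (g : Equiv.Perm ℚ) x = x + r
      · obtain ⟨r, hg⟩ := hg
        obtain ⟨a, b, r', hr', h⟩ := hform g
        have e0 := h 0
        rw [hg, mul_zero, zero_add, zero_add] at e0
        subst e0
        obtain ⟨n, k, hr⟩ := hr'
        have e1 : ∀ m : ℕ, (th (dil (m + 1) μ) : G → ℂ) g = cf μ (n * (m + 1 : ℕ)) := fun m => by
          have hd := dil_mem (Nat.succ_pos m) hμ
          have := hd.1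
          rw [th_tau (hd.2.2.1 2 (by simp)) (hd.2.2.1 3 (by simp)) hg hr, cf_dil]
        have e2 : reg G g = cf volume n := by
          rw [← hvol]
          exact th_tau v2 v3 hg hr
        simp_rw [e1]
        rw [e2]
        by_cases hn : n = 0
        · simp_rw [hn, zero_mul, cf_zero]
          simp
        · simp_rw [cf_volume hn, sub_zero]
          have hw := wiener_sq (μ := μ) hμ.2.1 hn
          have hlim : Tendsto (fun N : ℕ => (N : ℝ)⁻¹ * ∑ k ∈ Finset.range N, ‖cf μ (n * k)‖ ^ 2 +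
              (N : ℝ)⁻¹) atTop (𝓝 (0 + 0)) := hw.add tendsto_inv_atTop_nhds_zero_nat
          rw [add_zero] at hlim
          refine squeeze_zero (fun N => by positivity) (fun N => ?_) hlim
          rw [← mul_one ((N : ℝ)⁻¹), mul_assoc, mul_assoc, one_mul, ← mul_add]
          refine mul_le_mul_of_nonneg_left ?_ (by positivity)
          have h1 : ∑ k ∈ Finset.range N, ‖cf μ (n * (k + 1 : ℕ))‖ ^ 2 + ‖cf μ (n * (0 : ℕ))‖ ^ 2 =
              ∑ k ∈ Finset.range N, ‖cf μ (n * k)‖ ^ 2 + ‖cf μ (n * (N : ℕ))‖ ^ 2 := by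
            rw [← Finset.sum_range_succ' (fun k : ℕ => ‖cf μ (n * (k : ℕ))‖ ^ 2) N,
              Finset.sum_range_succ]
          have h2 : ‖cf μ (n * (N : ℕ))‖ ^ 2 ≤ 1 := pow_le_one₀ (norm_nonneg _) (norm_cf_le _ _)
          have h3 : 0 ≤ ‖cf μ (n * (0 : ℕ))‖ ^ 2 := by positivity
          have h4 : ∑ k ∈ Finset.range N, ‖cf μ (n * (k + 1 : ℕ))‖ ^ 2 ≤
              ∑ k ∈ Finset.range N, ‖cf μ (n * k)‖ ^ 2 + 1 := by linarith
          simpa using h4
      · have e1 : ∀ m : ℕ, (th (dil (m + 1) μ) : G → ℂ) g = 0 := fun m => th_off hform hg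
        have e2 : reg G g = 0 := by rw [← hvol]; exact th_off hform hg
        simp_rw [e1]
        rw [e2]
        simp

end Pool.Agent.Results.MP_81910f_an.IsolatedRegularTrace
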