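import Pool.Agent.Q166.TR.JR

/-!
# Joint ranges of two values of the tracial states of `C*(ℤ² ⋉ ℤ[1/6])`

Let `G` be the group generated by `x ↦ 2 x`, `x ↦ 3 x`, `x ↦ x + 1` on `ℚ`, a copy of
`ℤ² ⋉ ℤ[1/6]`.  The tracial states of `C*(G)` are the normalised positive definite class functions
`φ` on `G`.  For a translation `g ≠ 1` the sets of all pairs `(Re φ(g), Re φ(g^7))` and
`(Re φ(g^5), Re φ(g^7))` are determined.
-/

set_option autoImplicit false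

open scoped ComplexOrder

namespace Pool.Agent.Results.MP_81910f_an.JointValueRanges

/-- the copies of `ℤ² ⋉ ℤ[1/6]`: the group of permutations of `ℚ` generated by `x ↦ 2 x`,
`x ↦ 3 x`, `x ↦ x + 1` -/
def IsF23 (G : Subgroup (Equiv.Perm ℚ)) : Prop :=
  ∃ s2 s3 t : Equiv.Perm ℚ, (∀ x : ℚ, s2 x = 2 * x) ∧ (∀ x : ℚ, s3 x = 3 * x) ∧
    (∀ x : ℚ, t x = x + 1) ∧ G = Subgroup.closure {s2, s3, t}

/-- the tracial states: normalised positive definite class functions -/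
def Tracial (G : Subgroup (Equiv.Perm ℚ)) : Set (G → ℂ) :=
  {ψ : G → ℂ | ψ 1 = 1 ∧ (∀ g h : G, ψ (h * g * h⁻¹) = ψ g) ∧
    ∀ (s : Finset G) (c : G → ℂ), 0 ≤ ∑ i ∈ s, ∑ j ∈ s, star (c j) * c i * ψ (j⁻¹ * i)}

/-- `g` is a translation -/
def IsTranslation {G : Subgroup (Equiv.Perm ℚ)} (g : G) : Prop :=
  ∃ r : ℚ, ∀ x : ℚ, (g : Equiv.Perm ℚ) x = x + r

/-- conditional finite-dimensionality: the translates of `φ` by the translations span a
finite-dimensional space -/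
def CondFinDim {G : Subgroup (Equiv.Perm ℚ)} (φ : G → ℂ) : Prop :=
  FiniteDimensional ℂ (Submodule.span ℂ {F : G → ℂ | ∃ n : G, IsTranslation n ∧
    F = fun x => φ (n * x)})

/-- Let `g ≠ 1` be a translation in `G`.
(1) The set of the pairs `(Re φ(g), Re φ(g^7))`, `φ` any tracial state (extreme or not), is exactly
the quadrilateral with the vertices `(-1/4, -1/4)`, `(1/24, -1/4)`, `(1, 1)`, `(-1/6, 1)`, and each
of its points is attained by a conditionally finite-dimensional tracial state.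
(2) The same for the pairs `(Re φ(g^5), Re φ(g^7))` and the pentagon with the vertices
`(-1/4, 0)`, `(-1/6, -1/4)`, `(1, -1/4)`, `(1, 1)`, `(-1/6, 1)`.
(3) If `φ` is extreme and not conditionally finite-dimensional, then both pairs are interior
points. -/
theorem result (G : Subgroup (Equiv.Perm ℚ)) (hG : IsF23 G) (g : G) (hg1 : g ≠ 1)
    (hg : IsTranslation g) :
    (∀ x y : ℝ, List.TFAE [
      ∃ φ ∈ Tracial G, x = (φ g).re ∧ y = (φ (g ^ 7)).re,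
      ∃ φ ∈ Tracial G, CondFinDim φ ∧ x = (φ g).re ∧ y = (φ (g ^ 7)).re,
      -(1 / 4) ≤ y ∧ y ≤ 1 ∧ 30 * x - 23 * y ≤ 7 ∧ y - 15 * x ≤ 7 / 2]) ∧
    (∀ x y : ℝ, List.TFAE [
      ∃ φ ∈ Tracial G, x = (φ (g ^ 5)).re ∧ y = (φ (g ^ 7)).re,
      ∃ φ ∈ Tracial G, CondFinDim φ ∧ x = (φ (g ^ 5)).re ∧ y = (φ (g ^ 7)).re,
      x ≤ 1 ∧ -(1 / 4) ≤ y ∧ y ≤ 1 ∧ -(3 / 4) ≤ 3 * x + y ∧ -3 ≤ 12 * x - y]) ∧
    ∀ φ ∈ (Tracial G).extremePoints ℝ, ¬ CondFinDim φ →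
      ∀ x y z : ℝ, x = (φ g).re → y = (φ (g ^ 5)).re → z = (φ (g ^ 7)).re →
        (-(1 / 4) < z ∧ z < 1 ∧ 30 * x - 23 * z < 7 ∧ z - 15 * x < 7 / 2) ∧
        (y < 1 ∧ -(3 / 4) < 3 * y + z ∧ -3 < 12 * y - z) := by
  obtain ⟨s2, s3, t, h2, h3, ht, hG⟩ := hG
  refine ⟨fun x y => ?_, fun x y => ?_, ?_⟩
  · tfae_have 2 → 1 := fun ⟨φ, h, _, h'⟩ => ⟨φ, h, h'⟩
    tfae_have 1 → 3 := by
      rintro ⟨φ, ⟨a, b, c⟩, hx, hy⟩
      obtain ⟨μ, hμ, hv, -⟩ := Pool.Agent.Q166.TR.measure_of h2 h3 ht hG hg1 hg a b c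
      have e1 := hv 1
      rw [pow_one] at e1
      rw [e1] at hx
      rw [hv] at hy
      have := (Set.ext_iff.mp Pool.Agent.Q298.FC.jr17 (x, y)).1 ⟨μ, hμ, by rw [hx, hy]⟩
      exact this
    tfae_have 3 → 2 := by
      rintro ⟨a1, a2, a3, a4⟩
      obtain ⟨μ, hμ, hK, hv⟩ := Pool.Agent.Q166.TR.kr17 a1 a2 a3 a4
      obtain ⟨φ, hφ, hfd, hval⟩ := Pool.Agent.Q166.TR.trace_of h2 h3 ht hG hg1 hg hμ hK
      refine ⟨φ, hφ, hfd, ?_, ?_⟩
      · have := hval 1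
        rw [pow_one] at this
        rw [this]
        exact congrArg Prod.fst hv
      · rw [hval]
        exact congrArg Prod.snd hv
    tfae_finish
  · tfae_have 2 → 1 := fun ⟨φ, h, _, h'⟩ => ⟨φ, h, h'⟩
    tfae_have 1 → 3 := by
      rintro ⟨φ, ⟨a, b, c⟩, hx, hy⟩
      obtain ⟨μ, hμ, hv, -⟩ := Pool.Agent.Q166.TR.measure_of h2 h3 ht hG hg1 hg a b c
      rw [hv] at hx hy
      have := (Set.ext_iff.mp Pool.Agent.Q298.FC.jr57 (x, y)).1 ⟨μ, hμ, by rw [hx, hy]⟩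
      exact this
    tfae_have 3 → 2 := by
      rintro ⟨a1, a2, a3, a4, a5⟩
      obtain ⟨μ, hμ, hK, hv⟩ := Pool.Agent.Q166.TR.kr57 a1 a2 a3 a4 a5
      obtain ⟨φ, hφ, hfd, hval⟩ := Pool.Agent.Q166.TR.trace_of h2 h3 ht hG hg1 hg hμ hK
      refine ⟨φ, hφ, hfd, ?_, ?_⟩
      · rw [hval]
        exact congrArg Prod.fst hv
      · rw [hval]
        exact congrArg Prod.snd hv
    tfae_finish
  · intro φ hφ hfd x y z hx hy hz
    obtain ⟨a, b, c⟩ := hφ.1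
    obtain ⟨μ, h, hv, hat'⟩ := Pool.Agent.Q166.TR.measure_of h2 h3 ht hG hg1 hg a b c
    have hat : ∀ x, μ {x} = 0 := by
      rcases hat' hφ with h5 | h5
      · exact absurd h5 hfd
      · exact h5
    have e1 := hv 1
    rw [pow_one] at e1
    rw [e1] at hx
    rw [hv] at hy hz
    subst hx hy hz
    have b1 := (Pool.Agent.Q298.FC.low7 h).2 hat
    have b2 := (Pool.Agent.Q298.FC.up7 h).2 hat
    have b3 := (Pool.Agent.Q298.FC.ineqA h).2 hat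
    have b4 := (Pool.Agent.Q298.FC.ineqB h).2 hat
    have b5 := (Pool.Agent.Q298.FC.up5 h).2 hat
    have b6 := (Pool.Agent.Q298.FC.ineqC h).2 hat
    have b7 := (Pool.Agent.Q298.FC.ineqD h).2 hat
    refine ⟨⟨b1, b2, b3, b4⟩, b5, ?_, b7⟩
    rw [add_comm]
    exact b6

end Pool.Agent.Results.MP_81910f_an.JointValueRanges
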