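import Pool.Agent.Q166.TR.Poly2

/-!
# Tracial states of `C*(ℤ² ⋉ ℤ[1/6])` which are small on one polynomial in a translation

Let `G` be the group generated by `x ↦ 2 x`, `x ↦ 3 x`, `x ↦ x + 1` on `ℚ`, a copy of
`ℤ² ⋉ ℤ[1/6]`.  The tracial states of `C*(G)` are the normalised positive definite class functions
`φ` on `G`.  For a polynomial `P` and a translation `g` the number `φ(P(g)* P(g))` is
`∑_{i, j} conj (a_j) a_i φ (g^{-j} g^i)`, `P = ∑ a_i X^i`.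
-/

set_option autoImplicit false

open Filter
open scoped ComplexOrder

namespace Pool.Agent.Results.MP_81910f_an.PolynomialGrowth

/-- the copies of `ℤ² ⋉ ℤ[1/6]`: the group of permutations of `ℚ` generated by `x ↦ 2 x`,
`x ↦ 3 x`, `x ↦ x + 1` -/
def IsF23 (G : Subgroup (Equiv.Perm ℚ)) : Prop :=
  ∃ s2 s3 t : Equiv.Perm ℚ, (∀ x : ℚ, s2 x = 2 * x) ∧ (∀ x : ℚ, s3 x = 3 * x) ∧
    (∀ x : ℚ, t x = x + 1) ∧ G = Subgroup.closure {s2, s3, t}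

/-- the tracial states: normalised positive definite class functions -/
def Tracial (G : Subgroup (Equiv.Perm ℚ)) : Set (G → ℂ) :=
  {ψ : G → ℂ | ψ 1 = 1 ∧ (∀ g h : G, ψ (h * g * h⁻¹) = ψ g) ∧
    ∀ (s : Finset G) (c : G → ℂ), 0 ≤ ∑ i ∈ s, ∑ j ∈ s, star (c j) * c i * ψ (j⁻¹ * i)}

/-- `g` is a translation -/
def IsTranslation {G : Subgroup (Equiv.Perm ℚ)} (g : G) : Prop :=
  ∃ r : ℚ, ∀ x : ℚ, (g : Equiv.Perm ℚ) x = x + r

/-- conditional finite-dimensionality: the translates of `φ` by the translations span a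
finite-dimensional space -/
def CondFinDim {G : Subgroup (Equiv.Perm ℚ)} (φ : G → ℂ) : Prop :=
  FiniteDimensional ℂ (Submodule.span ℂ {F : G → ℂ | ∃ n : G, IsTranslation n ∧
    F = fun x => φ (n * x)})

/-- the value `φ (P(g)* P(g))` of the linear extension of `φ` to the group ring -/
noncomputable def value {G : Subgroup (Equiv.Perm ℚ)} (φ : G → ℂ) (P : Polynomial ℂ) (g : G) : ℂ :=
  ∑ i ∈ P.support, ∑ j ∈ P.support, star (P.coeff j) * P.coeff i * φ ((g ^ j)⁻¹ * g ^ i)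

/-- (1) For every nonzero polynomial `P` there is `d ≥ 1` such that `z ^ d = 1` whenever `|z| = 1`
and `P` vanishes at all `z ^ (2^i 3^j)`.
(2) For every such `P` and `d` and every `κ > 0` there is `C` such that for ALL tracial states `φ`
(extreme or not), all translations `g` and all `n ≥ 1`
`1 - Re φ (g^(d n)) ≤ C (1 + log n)^κ φ (P(g)* P(g))`.
(3) If on the unit circle `P` vanishes on no set `{z ^ (2^i 3^j)}`, then `φ (P(g)* P(g)) ≥ ε > 0`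
for all tracial states and all translations.
(4) An extreme tracial state is conditionally finite-dimensional if and only if
`φ (P(u)* P(u)) = 0` for some nonzero `P`, `u` the translation by `1`, if and only if for some
nonzero `P` and some `κ > 0`, for all large `N`, some `1 ≤ n ≤ 2^N` satisfies
`φ (P(u^n)* P(u^n)) ≤ N^(-κ)`. -/
theorem result :
    (∀ P : Polynomial ℂ, P ≠ 0 → ∃ d : ℕ, 1 ≤ d ∧
      ∀ z : ℂ, ‖z‖ = 1 → (∀ i j : ℕ, P.eval (z ^ (2 ^ i * 3 ^ j)) = 0) → z ^ d = 1) ∧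
    (∀ P : Polynomial ℂ, P ≠ 0 → ∀ d : ℕ, 1 ≤ d →
      (∀ z : ℂ, ‖z‖ = 1 → (∀ i j : ℕ, P.eval (z ^ (2 ^ i * 3 ^ j)) = 0) → z ^ d = 1) →
      ∀ κ : ℝ, 0 < κ → ∃ C : ℝ, 0 < C ∧
        ∀ G : Subgroup (Equiv.Perm ℚ), IsF23 G → ∀ φ ∈ Tracial G, ∀ g : G, IsTranslation g →
          ∀ n : ℕ, 1 ≤ n →
            1 - (φ (g ^ (d * n))).re ≤ C * (1 + Real.log n) ^ κ * (value φ P g).re) ∧
    (∀ P : Polynomial ℂ, (∀ z : ℂ, ‖z‖ = 1 → ∃ i j : ℕ, P.eval (z ^ (2 ^ i * 3 ^ j)) ≠ 0) →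
      ∃ ε : ℝ, 0 < ε ∧ ∀ G : Subgroup (Equiv.Perm ℚ), IsF23 G → ∀ φ ∈ Tracial G,
        ∀ g : G, IsTranslation g → ε ≤ (value φ P g).re) ∧
    ∀ G : Subgroup (Equiv.Perm ℚ), IsF23 G → ∀ u : G, (∀ x : ℚ, (u : Equiv.Perm ℚ) x = x + 1) →
      ∀ φ ∈ (Tracial G).extremePoints ℝ,
        List.TFAE [CondFinDim φ,
          ∃ P : Polynomial ℂ, P ≠ 0 ∧ value φ P u = 0,
          ∃ P : Polynomial ℂ, P ≠ 0 ∧ ∃ κ : ℝ, 0 < κ ∧ ∀ᶠ N : ℕ in atTop, ∃ n : ℕ, 1 ≤ n ∧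
            n ≤ 2 ^ N ∧ (value φ P (u ^ n)).re ≤ (N : ℝ) ^ (-κ)] := by
  refine ⟨fun P hP => Pool.Agent.Q166.TR.exists_d hP, fun P hP d hd1 hd κ hκ => ?_,
    fun P hP => ?_, ?_⟩
  · obtain ⟨C, hC, h⟩ := Pool.Agent.Q166.TR.growth hP hd1 hd hκ
    refine ⟨C, hC, ?_⟩
    rintro G ⟨s2, s3, t, h2, h3, ht, hG⟩ φ ⟨a, b, c⟩ g hg n hn
    exact h s2 s3 t h2 h3 ht G hG φ a b c g hg n hn
  · obtain ⟨ε, hε, h⟩ := Pool.Agent.Q166.TR.lower hP
    refine ⟨ε, hε, ?_⟩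
    rintro G ⟨s2, s3, t, h2, h3, ht, hG⟩ φ ⟨a, b, c⟩ g hg
    exact h s2 s3 t h2 h3 ht G hG φ a b c g hg
  · rintro G ⟨s2, s3, t, h2, h3, ht, hG⟩ u hu φ hφ
    exact Pool.Agent.Q166.TR.extreme_poly s2 s3 t h2 h3 ht G hG u hu φ hφ

end Pool.Agent.Results.MP_81910f_an.PolynomialGrowth
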