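import Pool.Agent.TH463.UR.Main
import Pool.Agent.Q227.Tr.Off

/-!
# A universal set of primes for the extreme traces of `C*(ℤ² ⋉ ℤ[1/6])`: weak convergence to zero

Let `G` be the group generated by `x ↦ 2 x`, `x ↦ 3 x`, `x ↦ x + 1` on `ℚ`, a copy of
`ℤ² ⋉ ℤ[1/6]`.  The tracial states of `C*(G)` are the normalised positive definite class functions
`φ` on `G`.

For every `η > 0` there is one set `C` of primes, missing at most the proportion `η` of the primes
below `N` for every `N`, such that for every extreme trace `φ` which is not conditionally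
finite-dimensional and every translation `g ≠ 1` the unitaries `u_g ^ c` tend weakly to zero in the
GNS representation of `φ` as `c → ∞` in `C`: `φ (h g ^ c) → 0` for all `h` in `G`.  If the values of
an extreme trace `φ` at the translations are unchanged under `g ↦ g ^ c` for the elements `c` of
one infinite subset of `C`, however sparse, then the dichotomy of the problem holds for `φ`.

The measures are treated in `Pool.Agent.TH463.UR`; that the trace vanishes off the translations is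
`Pool.Agent.Q227.Tr.off`.
-/

set_option autoImplicit false

open MeasureTheory Filter Topology
open scoped ComplexOrder

namespace Pool.Agent.Results.MP_81910f_an.UniversalPrimesWeak

open Pool.Agent.W763.Tr Pool.Agent.TH654.FC TH463 TH463.UR TH463.UQ

/-- one set of primes for the shifted coefficients -/
theorem primes_coeff {η : ℝ} (hη : 0 < η) : ∃ C : Set ℕ, (∀ c ∈ C, c.Prime) ∧
    (∀ N : ℕ, (Nat.card {c : ℕ | c < N ∧ c.Prime ∧ c ∉ C} : ℝ) ≤
      η * Nat.card {c : ℕ | c < N ∧ c.Prime}) ∧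
    ∀ μ : Measure UnitAddCircle, IsProbabilityMeasure μ →
      MeasurePreserving (fun x : UnitAddCircle => 2 • x) μ μ → (∀ x, μ {x} = 0) →
      ∀ m k : ℤ, m ≠ 0 →
        Tendsto (fun c : ℕ => ∫ x, (fourier (m * c + k) x : ℂ) ∂μ) (atTop ⊓ 𝓟 C) (𝓝 0) := by
  classical
  obtain ⟨K, hK, hP⟩ := bt_primes
  obtain ⟨C, β, h0, h1, h2⟩ := exists_set reg_GP hK hP (show 0 < η / 20 by positivity)
  refine ⟨C, fun c hc => h0 hc, fun N => ?_, ?_⟩
  · rcases lt_or_ge N 3 with hN | hN
    · have : {c : ℕ | c < N ∧ c.Prime ∧ c ∉ C} = ∅ := by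
        rw [Set.eq_empty_iff_forall_notMem]
        rintro c ⟨h3, h4, -⟩
        have := h4.two_le
        omega
      rw [this]
      simp only [Nat.card_eq_fintype_card, Fintype.card_of_isEmpty, Nat.cast_zero]
      positivity
    · have h3 : (Nat.card {c : ℕ | c < N ∧ c.Prime ∧ c ∉ C} : ℝ) ≤ η / 20 * GP N := by
        rw [card_setOf]
        refine le_trans (le_of_eq ?_) (h1 N)
        congr!
      refine h3.trans ?_
      have := mul_le_mul_of_nonneg_left (GP_le_count hN) (show 0 ≤ η / 20 by positivity)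
      linarith
  · intro μ hμ hμ2 hat m k hm
    have hpos : ∀ (a : ℕ) (t : ℤ), Tendsto (fun c : ℕ =>
        ∫ x, (fourier (((a : ℤ) + 1) * c + t) x : ℂ) ∂μ) (atTop ⊓ 𝓟 C) (𝓝 0) :=
      fun a t => coeff_tendsto h2 le_rfl hμ2 hat a t
    rcases lt_or_gt_of_ne hm with h | h
    · have h3 := hpos (-m - 1).toNat (-k)
      have e : (((-m - 1).toNat : ℤ) + 1) = -m := by
        rw [Int.toNat_of_nonneg (by omega)]
        ring
      rw [e] at h3
      have h4 := (Complex.continuous_conj.tendsto _).comp h3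
      rw [map_zero] at h4
      refine h4.congr fun c => ?_
      simp only [Function.comp_apply]
      rw [← integral_conj]
      congr 1
      ext x
      rw [← fourier_neg]
      congr 2
      ring
    · have h3 := hpos (m - 1).toNat k
      have e : (((m - 1).toNat : ℤ) + 1) = m := by
        rw [Int.toNat_of_nonneg (by omega)]
        ring
      rw [e] at h3
      exact h3

/-- **A universal set of primes for extreme traces.** -/
theorem result (η : ℝ) (hη : 0 < η) : ∃ C : Set ℕ, (∀ c ∈ C, c.Prime) ∧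
    (∀ N : ℕ, (Nat.card {c : ℕ | c < N ∧ c.Prime ∧ c ∉ C} : ℝ) ≤
      η * Nat.card {c : ℕ | c < N ∧ c.Prime}) ∧
    ∀ (s2 s3 t : Equiv.Perm ℚ), (∀ x : ℚ, s2 x = 2 * x) → (∀ x : ℚ, s3 x = 3 * x) →
    (∀ x : ℚ, t x = x + 1) →
    ∀ (G : Subgroup (Equiv.Perm ℚ)), G = Subgroup.closure {s2, s3, t} → ∀ φ : G → ℂ,
      φ ∈ Set.extremePoints ℝ {ψ : G → ℂ | ψ 1 = 1 ∧ (∀ g h : G, ψ (h * g * h⁻¹) = ψ g) ∧
        ∀ (s : Finset G) (c : G → ℂ), 0 ≤ ∑ i ∈ s, ∑ j ∈ s, star (c j) * c i * ψ (j⁻¹ * i)} →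
      (FiniteDimensional ℂ (Submodule.span ℂ {F : G → ℂ | ∃ n : G,
          (∃ r : ℚ, ∀ x : ℚ, (n : Equiv.Perm ℚ) x = x + r) ∧ F = fun x => φ (n * x)}) ∨
        ∀ g : G, g ≠ 1 → (∃ r : ℚ, ∀ x : ℚ, (g : Equiv.Perm ℚ) x = x + r) →
          ∀ h : G, Tendsto (fun c : ℕ => φ (h * g ^ c)) (atTop ⊓ 𝓟 C) (𝓝 0)) ∧
      ∀ S : Set ℕ, S ⊆ C → S.Infinite →
        (∀ c ∈ S, ∀ g : G, (∃ r : ℚ, ∀ x : ℚ, (g : Equiv.Perm ℚ) x = x + r) → φ (g ^ c) = φ g) →
        φ = Set.indicator ({1} : Set G) (fun _ => (1 : ℂ)) ∨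
          FiniteDimensional ℂ (Submodule.span ℂ {F : G → ℂ | ∃ n : G,
            (∃ r : ℚ, ∀ x : ℚ, (n : Equiv.Perm ℚ) x = x + r) ∧ F = fun x => φ (n * x)}) := by
  obtain ⟨C, hC0, hC1, hC2⟩ := primes_coeff hη
  refine ⟨C, hC0, hC1, fun s2 s3 t hs2 hs3 ht G hG φ hext => ?_⟩
  obtain ⟨h1, hcl, hpd⟩ := hext.1
  obtain ⟨τ, S6, μ, D⟩ := data_of hs2 hs3 ht hG h1 hcl hpd
  have hprob := D.prob
  have hkey : (∀ x, μ {x} = 0) → ∀ g : G, g ≠ 1 →
      (∃ r : ℚ, ∀ x : ℚ, (g : Equiv.Perm ℚ) x = x + r) → ∀ h : G,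
      Tendsto (fun c : ℕ => φ (h * g ^ c)) (atTop ⊓ 𝓟 C) (𝓝 0) := by
    rintro hat g hg1 ⟨r, hg⟩ h
    obtain ⟨m, k, hr⟩ := D.six hg
    have hm : m ≠ 0 := by
      intro hm
      apply hg1
      apply Subtype.ext
      apply Equiv.ext
      intro x
      rw [hg, hr, hm]
      simp
    have hpow : ∀ (n : ℕ) (x : ℚ), ((g ^ n : G) : Equiv.Perm ℚ) x = x + n * r := by
      intro n
      induction n with
      | zero => intro x; simp
      | succ n ih =>
        intro x
        rw [pow_succ, Subgroup.coe_mul, Equiv.Perm.mul_apply, hg, ih]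
        push_cast; ring
    by_cases hh : ∃ r' : ℚ, ∀ x : ℚ, (h : Equiv.Perm ℚ) x = x + r'
    · obtain ⟨r', hh⟩ := hh
      obtain ⟨m', k', hr'⟩ := D.six hh
      have e : ∀ c : ℕ, φ (h * g ^ c) =
          ∫ x, (fourier (m * 6 ^ k' * c + m' * 6 ^ k) x : ℂ) ∂μ := by
        intro c
        rw [D.hμ]
        refine phi_trans D.hτ D.hcl S6 D.hS6 _ _ (k + k') fun x => ?_
        rw [Subgroup.coe_mul, Equiv.Perm.mul_apply, hpow, hh, hr, hr']
        push_cast
        rw [pow_add]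
        field_simp
        ring
      simp_rw [e]
      exact hC2 μ D.prob D.mp2 hat _ _ (mul_ne_zero hm (by positivity))
    · have e : ∀ c : ℕ, φ (h * g ^ c) = 0 := by
        intro c
        refine Pool.Agent.Q227.Tr.off D hat _ ?_
        rintro ⟨r', hr'⟩
        apply hh
        refine ⟨r' - c * r, fun x => ?_⟩
        have h5 := hr' (x - c * r)
        rw [Subgroup.coe_mul, Equiv.Perm.mul_apply, hpow, sub_add_cancel] at h5
        rw [h5]
        ring
      simp_rw [e]
      exact tendsto_const_nhds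
  rcases finite_or_atomless D hext with hfd | hat
  · exact ⟨Or.inl hfd, fun _ _ _ _ => Or.inr hfd⟩
  · refine ⟨Or.inr (hkey hat), fun S hS hSi hinv => Or.inl ?_⟩
    have : (atTop ⊓ 𝓟 S : Filter ℕ).NeBot := by
      rw [← Filter.frequently_mem_iff_neBot]
      exact Nat.frequently_atTop_iff_infinite.2 hSi
    have hle : (atTop ⊓ 𝓟 S : Filter ℕ) ≤ atTop ⊓ 𝓟 C := inf_le_inf_left _ (principal_mono.2 hS)
    have hz : ∀ g : G, g ≠ 1 → (∃ r : ℚ, ∀ x : ℚ, (g : Equiv.Perm ℚ) x = x + r) → φ g = 0 := by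
      intro g hg1 hg
      have h3 := (hkey hat g hg1 hg 1).mono_left hle
      have h4 : Tendsto (fun c : ℕ => φ (1 * g ^ c)) (atTop ⊓ 𝓟 S) (𝓝 (φ g)) := by
        refine (tendsto_const_nhds (x := φ g)).congr' ?_
        have h5 : ∀ᶠ c : ℕ in atTop ⊓ 𝓟 S, c ∈ S :=
          eventually_inf_principal.2 (Eventually.of_forall fun _ h => h)
        filter_upwards [h5] with c hc
        rw [one_mul]
        exact (hinv c hc g hg).symm
      exact tendsto_nhds_unique h4 h3
    have hz' : ∀ n : ℤ, n ≠ 0 → φ (τ n) = 0 := by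
      intro n hn
      refine hz (τ n) ?_ ⟨n, D.hτ n⟩
      intro h0
      have h5 := D.hτ n 0
      rw [h0] at h5
      simp at h5
      exact hn (by exact_mod_cast h5.symm)
    funext g
    by_cases hg : g = 1
    · rw [hg, h1]
      simp
    · rw [eq_regular D.hτ D.h1 D.hcl D.hpd S6 D.hS6 D.hform hz' g hg]
      simp [hg]

end Pool.Agent.Results.MP_81910f_an.UniversalPrimesWeak
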